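import Pool.Agent.Q188.Rhomb.Reg

/-!
# The circumradius minimiser among rhombic dodecahedra is not unique in three-space

For `0 ≤ δ ≤ 1/4` the zonotope generated by `(1+δ,1,1)`, `(1+δ,-1,-1)`, `(-1+δ,1,-1)`,
`(-1+δ,-1,1)` has volume `16` and circumradius `2`; for `δ = 0` it is regular, for `δ = 1/4` it is
not.  Every rhombic dodecahedron of circumradius `R` in three-space has volume at most `2 R ^ 3`.
-/

set_option autoImplicit false

open MeasureTheory Set Q188.Rhomb Q188.Iso
open scoped Pointwise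

namespace Pool.Agent.Results.MP_de3f1f_gt.CircumradiusNotUnique

/-- In three-space there is a rhombic dodecahedron `Z` of unit volume whose circumradius is minimal
among all rhombic dodecahedra of unit volume, which is not regular; a regular rhombic dodecahedron
of unit volume has the same circumradius. -/
theorem result : ∃ d : ℕ, 2 ≤ d ∧ ∃ Z : Set (EuclideanSpace ℝ (Fin d)),
    IsRhombic Z ∧ volume Z = 1 ∧
      (∀ Z' : Set (EuclideanSpace ℝ (Fin d)), IsRhombic Z' → volume Z' = 1 →
        circumradius Z ≤ circumradius Z') ∧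
      ¬ IsRegularRhombic Z ∧
      ∃ Z₀ : Set (EuclideanSpace ℝ (Fin d)), IsRhombic Z₀ ∧ IsRegularRhombic Z₀ ∧ volume Z₀ = 1 ∧
        circumradius Z₀ = circumradius Z := by
  obtain ⟨l, hl, hl3⟩ : ∃ l : ℝ, 0 < l ∧ 16 * l ^ 3 = 1 := by
    refine ⟨(1 / 16 : ℝ) ^ (1 / 3 : ℝ), by positivity, ?_⟩
    rw [← Real.rpow_natCast, ← Real.rpow_mul (by norm_num)]
    norm_num
  have hvol : ∀ δ : ℝ, 0 ≤ δ → δ ≤ 1 → volume (Z l δ) = 1 := by
    intro δ h0 h1
    have := vol_Z hl h0 h1
    rw [hl3, ENNReal.toReal_eq_one_iff] at this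
    exact this
  refine ⟨3, by norm_num, Z l (1 / 4), isRhombic_Z hl (by norm_num), hvol _ (by norm_num)
    (by norm_num), ?_, not_regular hl, Z l 0, isRhombic_Z hl le_rfl, ?_, hvol _ le_rfl
    (by norm_num), ?_⟩
  · rintro Z' ⟨p, hp, rfl⟩ hv
    have h1 := S4_pos_of_span p hp
    have h2 := vol_Zono p h1
    rw [hv, ENNReal.toReal_one] at h2
    have h3 := S4_le p
    rw [circ_Z hl (by norm_num) le_rfl]
    have h4 : (2 * l) ^ 3 ≤ circumradius (Zono p) ^ 3 := by
      rw [← h2] at h3
      nlinarith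
    exact (pow_le_pow_iff_left₀ (by positivity) (circumradius_nonneg _) (by norm_num)).1 h4
  · refine ⟨0, fun i => l • X 0 i, ⟨l * √8, by positivity, ?_⟩, ?_, ?_⟩
    · intro i j hij
      have h8 : ‖X 0 i - X 0 j‖ ^ 2 = 8 := by
        rw [norm_sq3]
        unfold X
        fin_cases i <;> fin_cases j <;> first
          | exact absurd rfl hij
          | (simp; norm_num)
      rw [dist_eq_norm, ← smul_sub, norm_smul, Real.norm_eq_abs, abs_of_pos hl, ← h8,
        Real.sqrt_sq (norm_nonneg _)]
    · rw [← Finset.smul_sum, Fin.sum_univ_four]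
      ext i
      unfold X
      fin_cases i <;> simp
    · unfold Z
      simp
  · rw [circ_Z hl le_rfl (by norm_num), circ_Z hl (by norm_num) le_rfl]

end Pool.Agent.Results.MP_de3f1f_gt.CircumradiusNotUnique
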